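import Pool.Agent.H461.Om.Top

/-!
# Large Szpiro ratio, a bounded number of prime factors of the discriminant, prescribed local behaviour

Let `E₀` be a semistable elliptic curve over `ℚ` with full rational 2-torsion and let `κ < 6` be one
of the numbers `6 m / (m + 2)`. Arbitrarily close to `E₀`, in the real topology and in the `p`-adic
topologies of any finite set of primes, there are semistable curves with full rational 2-torsion
whose minimal discriminant `Δ` has a bounded number of prime factors, counted with multiplicity, and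
which satisfy `|Δ| ≥ c N ^ κ`. The number of those with conductor `N ≤ X` is at least
`X ^ (1 - κ/6)` up to a power of `log X`; `1 - κ/6` is the exponent of the number of all semistable
curves with full 2-torsion, `N ≤ X` and `|Δ| ≥ N ^ κ` (known for `κ ≤ 18/7`, expected for `κ < 6`).

The curves come from the triples `u x ^ m + v y ^ m = w`, `(u, v)` the pair of `E₀`, with `x` and `y`
in a short interval and in the class of `1` modulo a large number, such that `x`, `y` and
`w / (u + v)` have no small prime factors (a lower bound sieve which is uniform in `y`).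
-/

set_option autoImplicit false

namespace Pool.Agent.Results.MP_d8bd92_nt.BoundedOmegaNear

/-- an integral Weierstrass equation with `Δ ≠ 0` and `gcd (c₄, Δ) = 1`: a minimal model of a
semistable elliptic curve over `ℚ` -/
def Semistable (W : WeierstrassCurve ℤ) : Prop := W.Δ ≠ 0 ∧ IsCoprime W.c₄ W.Δ

/-- the product of the primes dividing `Δ(W)` (the conductor of a semistable curve) -/
def conductor (W : WeierstrassCurve ℤ) : ℕ := ∏ p ∈ W.Δ.natAbs.primeFactors, p

/-- all 2-torsion points are rational: `4x³ + b₂x² + 2b₄x + b₆` splits over `ℚ` -/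
def FullTwoTorsion (W : WeierstrassCurve ℤ) : Prop :=
  ∃ r₁ r₂ r₃ : ℚ, ∀ x : ℚ,
    4 * x ^ 3 + W.b₂ * x ^ 2 + 2 * W.b₄ * x + W.b₆ = 4 * (x - r₁) * (x - r₂) * (x - r₃)

/-- `W` is close to `W₀`: the coefficients are congruent modulo `Q`, and the invariants
`j = c₄³ / Δ` differ by less than `η` -/
def Near (Q : ℕ) (η : ℝ) (W₀ W : WeierstrassCurve ℤ) : Prop :=
  W.a₁ = W₀.a₁ ∧ W.a₂ = W₀.a₂ ∧ W.a₃ = W₀.a₃ ∧ (Q : ℤ) ∣ W.a₄ - W₀.a₄ ∧ (Q : ℤ) ∣ W.a₆ - W₀.a₆ ∧
    |(W.c₄ : ℝ) ^ 3 / W.Δ - (W₀.c₄ : ℝ) ^ 3 / W₀.Δ| < η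

/-- the exponents `6 m / (m + 2)`; they tend to `6` -/
noncomputable def kappa (m : ℕ) : ℝ := 6 * m / (m + 2)

/-- **Theorem.** Let `W₀` be a semistable elliptic curve over `ℚ` with full rational 2-torsion,
`Q, m ≥ 1`, `η > 0` and `κ = 6 m / (m + 2)`. There are `R` and `c > 0` such that for all large `X` at
least `c X ^ (1 - κ/6) / (log X) ^ (m + 2)` semistable elliptic curves with full rational 2-torsion
which are close to `W₀` (modulo `Q`, and up to `η` in the real topology) have conductor `N ≤ X` and a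
minimal discriminant with `|Δ| ≥ c X ^ κ` and with at most `R` prime factors, counted with
multiplicity. -/
theorem result (W₀ : WeierstrassCurve ℤ) (h₀ : Semistable W₀) (h₂ : FullTwoTorsion W₀)
    (Q m : ℕ) (hQ : 1 ≤ Q) (hm : 1 ≤ m) (η : ℝ) (hη : 0 < η) :
    ∃ (R : ℕ) (c X₀ : ℝ), 0 < c ∧ ∀ X : ℝ, X₀ ≤ X → ∃ S : Finset (ℤ × ℤ),
      c * X ^ (1 - kappa m / 6) / Real.log X ^ (m + 2) ≤ (S.card : ℝ) ∧
      ∀ q ∈ S, ∃ W : WeierstrassCurve ℤ, Semistable W ∧ FullTwoTorsion W ∧ q = (W.c₄, W.c₆) ∧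
        Near Q η W₀ W ∧ (conductor W : ℝ) ≤ X ∧ c * X ^ kappa m ≤ |(W.Δ : ℝ)| ∧
        ArithmeticFunction.cardFactors W.Δ.natAbs ≤ R := by
  obtain ⟨R, c, X₀, hc, h⟩ := Pool.Agent.H461.Om.main W₀ h₀ h₂ Q m hQ hm η hη
  refine ⟨R, c, X₀, hc, fun X hX => ?_⟩
  obtain ⟨S, hS1, hS2⟩ := h X hX
  refine ⟨S, ?_, fun q hq => ?_⟩
  · have e : 1 - kappa m / 6 = 2 / ((m : ℝ) + 2) := by
      have : (m : ℝ) + 2 ≠ 0 := by positivity
      unfold kappa
      field_simp
      ring
    rw [e, mul_div_assoc]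
    exact hS1
  · obtain ⟨W, e1, e2, e3, e4, e5, e6, e7, e8, e9, e10, e11, e12⟩ := hS2 q hq
    exact ⟨W, e2, e3, e1, ⟨e4, e5, e6, e7, e8, e9⟩, e10, e11, e12⟩

end Pool.Agent.Results.MP_d8bd92_nt.BoundedOmegaNear
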