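import Pool.Agent.H460.CF.GlobW

/-!
# Semistable elliptic curves with a given cubic 2-division field, counted by conductor

Fix a cubic field `K` and consider the semistable elliptic curves over `ℚ` which have a point of
order two over `K` but not over `ℚ`.  At most `C X ^ ε Z ^ (2/3)` of those of naive height at most
`X⁶` have conductor at most `Z`; so at most `C X ^ (4/κ + ε)` of them have `|Δ| > c₀ N ^ κ`, which is
`X ^ (2/3 + ε)` for the exponent `κ = 6` of the conjecture.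

The main point is that at most `C Y ^ ε R ^ (2/3)` coprime pairs of size `Y` have a value `F(m, n)`
of radical at most `R`, for every irreducible binary cubic form `F`.  The proof factors the values
in `K` and applies the theorem of Szemerédi and Trotter (proved in `Pool/Agent/H460/ST`).
-/

set_option autoImplicit false

namespace Pool.Agent.Results.MP_d8bd92_nt.CubicTwoDivisionSharp

open Finset NumberField

/-- the product of the distinct primes dividing `Δ(W)` (the conductor if `gcd(c₄, Δ) = 1`) -/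
def conductor (W : WeierstrassCurve ℤ) : ℕ := ∏ p ∈ W.Δ.natAbs.primeFactors, p

/-- there is a point of order two whose `x`-coordinate lies in `K` but not in `ℚ`: the 2-division
polynomial `4x³ + b₂x² + 2b₄x + b₆` has an irrational root in `K` -/
def HasPointOverK (K : Type) [Field K] [NumberField K] (W : WeierstrassCurve ℤ) : Prop :=
  ∃ θ : K, (∀ r : ℚ, θ ≠ algebraMap ℚ K r) ∧
    4 * θ ^ 3 + (W.b₂ : K) * θ ^ 2 + 2 * (W.b₄ : K) * θ + (W.b₆ : K) = 0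

/-- the invariants `(c₄, c₆)` of the integral Weierstrass curves with `Δ ≠ 0` and `gcd(c₄, Δ) = 1`
(the minimal models of the semistable elliptic curves over `ℚ`) having a point of order two over
`K` (not rational), naive height `max (|c₄|³, c₆²) ≤ X⁶` and conductor `N ≤ Z` -/
def Curves (K : Type) [Field K] [NumberField K] (Z : ℝ) (X : ℕ) : Set (ℤ × ℤ) :=
  {q | ∃ W : WeierstrassCurve ℤ, W.Δ ≠ 0 ∧ IsCoprime W.c₄ W.Δ ∧ HasPointOverK K W ∧
    q = (W.c₄, W.c₆) ∧ |W.c₄| ^ 3 ≤ (X : ℤ) ^ 6 ∧ W.c₆ ^ 2 ≤ (X : ℤ) ^ 6 ∧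
    (conductor W : ℝ) ≤ Z}

/-- the same with `c₀ N ^ κ < |Δ|` instead of `N ≤ Z` -/
def Exceptional (K : Type) [Field K] [NumberField K] (κ c₀ : ℝ) (X : ℕ) : Set (ℤ × ℤ) :=
  {q | ∃ W : WeierstrassCurve ℤ, W.Δ ≠ 0 ∧ IsCoprime W.c₄ W.Δ ∧ HasPointOverK K W ∧
    q = (W.c₄, W.c₆) ∧ |W.c₄| ^ 3 ≤ (X : ℤ) ^ 6 ∧ W.c₆ ^ 2 ≤ (X : ℤ) ^ 6 ∧
    c₀ * (conductor W : ℝ) ^ κ < |(W.Δ : ℝ)|}

/-- **Theorem.** Let `K` be a cubic field. (1) For every `ε > 0` there is `C` such that for all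
`X ≥ 1` and `Z ≥ 0` at most `C X ^ ε Z ^ (2/3)` isomorphism classes of semistable elliptic curves
over `ℚ` with a point of order two over `K` which is not rational and naive height at most `X⁶`
have conductor at most `Z`. (2) For all `κ, c₀, ε > 0` at most `C X ^ (4/κ + ε)` of those of naive
height at most `X⁶` have `c₀ N ^ κ < |Δ|`. -/
theorem result (K : Type) [Field K] [NumberField K] (hK : Module.finrank ℚ K = 3) :
    (∀ ε : ℝ, 0 < ε → ∃ C : ℝ, 0 < C ∧ ∀ (X : ℕ) (Z : ℝ), 1 ≤ X → 0 ≤ Z →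
      (Curves K Z X).Finite ∧
      ((Curves K Z X).ncard : ℝ) ≤ C * (X : ℝ) ^ ε * Z ^ ((2 : ℝ) / 3)) ∧
    (∀ κ c₀ ε : ℝ, 0 < κ → 0 < c₀ → 0 < ε → ∃ C : ℝ, ∀ X : ℕ, 1 ≤ X →
      (Exceptional K κ c₀ X).Finite ∧
      ((Exceptional K κ c₀ X).ncard : ℝ) ≤ C * (X : ℝ) ^ (4 / κ + ε)) := by
  have hup : ∀ ε : ℝ, 0 < ε → ∃ C : ℝ, 0 < C ∧ ∀ (X : ℕ) (Z : ℝ), 1 ≤ X → 0 ≤ Z →
      (Curves K Z X).Finite ∧
      ((Curves K Z X).ncard : ℝ) ≤ C * (X : ℝ) ^ ε * Z ^ ((2 : ℝ) / 3) := by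
    intro ε hε
    obtain ⟨C, hC, h⟩ := Pool.Agent.H460.CF.upperW K hK ε hε
    refine ⟨C, hC, fun X Z hX hZ => ?_⟩
    obtain ⟨h1, h2⟩ := h X Z hX hZ
    have hsub : Curves K Z X ⊆ Pool.Agent.H460.CF.CntW K Z X := by
      rintro q ⟨W, q1, q2, q3, q4, q5, q6, q7⟩
      refine ⟨W, Pool.Agent.W4.CF.gmin_of_coprime W q1 q2, q3, q4, q5, q6, le_trans ?_ q7⟩
      exact_mod_cast Pool.Agent.W4.CF.condW_le W q2
    refine ⟨h1.subset hsub, le_trans ?_ h2⟩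
    exact_mod_cast Set.ncard_le_ncard hsub h1
  refine ⟨hup, ?_⟩
  intro κ c ε hκ hc hε
  obtain ⟨C, hC, h⟩ := hup ε hε
  refine ⟨C * (1 / c) ^ (2 / (3 * κ)), fun X hX => ?_⟩
  have hX0 : (0 : ℝ) < X := by exact_mod_cast hX
  set Z : ℝ := (1 / c * (X : ℝ) ^ 6) ^ (1 / κ) with hZ
  have hpos : 0 < 1 / c * (X : ℝ) ^ 6 := by positivity
  obtain ⟨h1, h2⟩ := h X Z hX (by positivity)
  have hsub : Exceptional K κ c X ⊆ Curves K Z X := by
    rintro q ⟨W, q1, q2, q3, q4, q5, q6, q7⟩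
    refine ⟨W, q1, q2, q3, q4, q5, q6, ?_⟩
    have r4 : |(W.c₄ : ℝ)| ^ 3 ≤ (X : ℝ) ^ 6 := by exact_mod_cast q5
    have r5 : (W.c₆ : ℝ) ^ 2 ≤ (X : ℝ) ^ 6 := by exact_mod_cast q6
    have hrel : 1728 * (W.Δ : ℝ) = (W.c₄ : ℝ) ^ 3 - (W.c₆ : ℝ) ^ 2 := by
      exact_mod_cast W.c_relation
    have e1 : 1728 * |(W.Δ : ℝ)| ≤ |(W.c₄ : ℝ)| ^ 3 + (W.c₆ : ℝ) ^ 2 := by
      calc 1728 * |(W.Δ : ℝ)| = |1728 * (W.Δ : ℝ)| := by rw [abs_mul]; norm_num
        _ = |(W.c₄ : ℝ) ^ 3 - (W.c₆ : ℝ) ^ 2| := by rw [hrel]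
        _ ≤ |(W.c₄ : ℝ) ^ 3| + |(W.c₆ : ℝ) ^ 2| := abs_sub _ _
        _ = _ := by rw [abs_pow, abs_of_nonneg (sq_nonneg (W.c₆ : ℝ))]
    have hle : (conductor W : ℝ) ^ κ ≤ 1 / c * (X : ℝ) ^ 6 := by
      have h3 : c * (conductor W : ℝ) ^ κ ≤ (X : ℝ) ^ 6 := by
        have := abs_nonneg (W.Δ : ℝ)
        linarith
      rw [one_div, ← div_eq_inv_mul, le_div_iff₀ hc]
      linarith
    have h0 : (0 : ℝ) ≤ (conductor W : ℝ) := Nat.cast_nonneg _
    calc (conductor W : ℝ) = ((conductor W : ℝ) ^ κ) ^ (1 / κ) := by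
          rw [← Real.rpow_mul h0, mul_one_div_cancel hκ.ne', Real.rpow_one]
      _ ≤ Z := Real.rpow_le_rpow (by positivity) hle (by positivity)
  refine ⟨h1.subset hsub, ?_⟩
  have hcard : ((Exceptional K κ c X).ncard : ℝ) ≤ ((Curves K Z X).ncard : ℝ) := by
    exact_mod_cast Set.ncard_le_ncard hsub h1
  refine hcard.trans (h2.trans (le_of_eq ?_))
  have e : Z ^ ((2 : ℝ) / 3) = (1 / c) ^ (2 / (3 * κ)) * (X : ℝ) ^ (4 / κ) := by
    rw [hZ, ← Real.rpow_mul hpos.le, Real.mul_rpow (by positivity) (by positivity),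
      ← Real.rpow_natCast (X : ℝ) 6, ← Real.rpow_mul hX0.le]
    congr 2
    · field_simp
    · field_simp
      norm_num
  rw [e, Real.rpow_add hX0]
  ring

end Pool.Agent.Results.MP_d8bd92_nt.CubicTwoDivisionSharp
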