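import Pool.Agent.H461.Blk.FamTop

/-!
# Semistable curves in one-parameter families, counted by conductor: the exact exponent

Let `A`, `B` be binary forms over `ℤ` of degrees `2e`, `3e` without a common zero; they define the
family of the elliptic curves with the invariants `c₄ = A(t)`, `c₆ = B(t)`, all of whose bad fibres
are multiplicative up to quadratic twists. Let `s` be the number of the points of the projective line
over `ℂ` with a bad fibre (the cusps). If all cusps have degree at most three over `ℚ` and if the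
number of rational cusps is not `1`, then the number of the semistable elliptic curves over `ℚ` which
are quadratic twists of fibres and have conductor at most `X` and height at most `X ^ K` is
`X ^ (2 / s + o(1))` for every `K > 6e / s` (provided that there is one such curve), and almost all
of the semistable fibres satisfy `|Δ| ≤ c N ^ κ` for every `κ > 6e / s`, with an explicit bound for
the number of the exceptions. For instance, the number is `X ^ (1 / 3 + o(1))` for the curves with a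
rational point of order seven and `X ^ (1 / 4 + o(1))` for order nine, up to twists.
-/

set_option autoImplicit false

open Polynomial Filter Topology

namespace Pool.Agent.Results.MP_d8bd92_nt.FamiliesByConductor

/-- an integral Weierstrass equation with `Δ ≠ 0` and `gcd (c₄, Δ) = 1`: a minimal model of a
semistable elliptic curve over `ℚ` -/
def Semistable (W : WeierstrassCurve ℤ) : Prop := W.Δ ≠ 0 ∧ IsCoprime W.c₄ W.Δ

/-- the product of the primes dividing `Δ(W)` (the conductor of a semistable curve) -/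
def conductor (W : WeierstrassCurve ℤ) : ℕ := ∏ p ∈ W.Δ.natAbs.primeFactors, p

/-- The family of the curves with `c₄ = a(t)`, `c₆ = b(t)`: the binary forms of degrees `2e` and `3e`
given by the polynomials `a` and `b` have no common zero on the projective line over `ℂ`. (The
polynomials have no common root, and `∞` is not a common zero.) -/
def IsFamily (e : ℕ) (a b : ℤ[X]) : Prop :=
  a.natDegree ≤ 2 * e ∧ b.natDegree ≤ 3 * e ∧
    IsCoprime (a.map (Int.castRingHom ℚ)) (b.map (Int.castRingHom ℚ)) ∧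
    (a.coeff (2 * e) ≠ 0 ∨ b.coeff (3 * e) ≠ 0)

/-- the number of the cusps: the number of the different zeros on the projective line over `ℂ` of the
form of degree `6e` given by `a³ - b²` -/
noncomputable def cusps (e : ℕ) (a b : ℤ[X]) : ℕ :=
  ((a ^ 3 - b ^ 2).rootSet ℂ).ncard + if (a ^ 3 - b ^ 2).natDegree < 6 * e then 1 else 0

/-- the number of the rational cusps -/
noncomputable def rationalCusps (e : ℕ) (a b : ℤ[X]) : ℕ :=
  ((a ^ 3 - b ^ 2).rootSet ℚ).ncard + if (a ^ 3 - b ^ 2).natDegree < 6 * e then 1 else 0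

open Classical in
/-- the weight: the sum over the classes of conjugate cusps of their degree over `ℚ` if the degree is
at most three, and of `2` otherwise -/
noncomputable def weight (e : ℕ) (a b : ℤ[X]) : ℕ :=
  ∑ p ∈ (UniqueFactorizationMonoid.normalizedFactors
      ((a ^ 3 - b ^ 2).map (Int.castRingHom ℚ))).toFinset,
    (if p.natDegree ≤ 3 then p.natDegree else 2) +
    if (a ^ 3 - b ^ 2).natDegree < 6 * e then 1 else 0

/-- `W` is (isomorphic over `ℚ` to) a quadratic twist of the fibre over `t`: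
`(a(t), b(t)) = (l² c₄, l³ c₆)` -/
def Fibre (a b : ℤ[X]) (t : ℚ) (W : WeierstrassCurve ℤ) : Prop :=
  ∃ l : ℚ, l ≠ 0 ∧ aeval t a = l ^ 2 * W.c₄ ∧ aeval t b = l ^ 3 * W.c₆

/-- the invariants `(c₄, c₆)` of the semistable elliptic curves over `ℚ` which are twists of fibres
and have conductor at most `X` and height `max (|c₄|³, c₆²) ≤ Z` -/
def Curves (a b : ℤ[X]) (X Z : ℝ) : Set (ℤ × ℤ) :=
  {p | ∃ (W : WeierstrassCurve ℤ) (t : ℚ), p = (W.c₄, W.c₆) ∧ Semistable W ∧ Fibre a b t W ∧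
    (conductor W : ℝ) ≤ X ∧ |(W.c₄ : ℝ)| ^ 3 ≤ Z ∧ (W.c₆ : ℝ) ^ 2 ≤ Z}

/-- the invariants `(c₄, c₆)` of the semistable elliptic curves over `ℚ` which are twists of fibres,
have height `max (|c₄|³, c₆²) ≤ Z` and violate `|Δ| < c₀ N ^ κ` -/
def Violators (a b : ℤ[X]) (κ c₀ Z : ℝ) : Set (ℤ × ℤ) :=
  {p | ∃ (W : WeierstrassCurve ℤ) (t : ℚ), p = (W.c₄, W.c₆) ∧ Semistable W ∧ Fibre a b t W ∧
    |(W.c₄ : ℝ)| ^ 3 ≤ Z ∧ (W.c₆ : ℝ) ^ 2 ≤ Z ∧ c₀ * (conductor W : ℝ) ^ κ ≤ |(W.Δ : ℝ)|}

/-- the elliptic curves with a rational point of order seven (Tate, Kubert): `(0, 0)` has order seven -/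
def kubert7 (t : ℚ) : WeierstrassCurve ℚ :=
  ⟨1 + t - t ^ 2, -(t ^ 2 * (t - 1)), -(t ^ 2 * (t - 1)), 0, 0⟩

/-- the elliptic curves with a rational point of order nine (Tate, Kubert): `(0, 0)` has order nine -/
def kubert9 (t : ℚ) : WeierstrassCurve ℚ :=
  ⟨1 - t ^ 2 * (t - 1), -(t ^ 2 * (t - 1) * (t ^ 2 - t + 1)),
    -(t ^ 2 * (t - 1) * (t ^ 2 - t + 1)), 0, 0⟩

/-- the invariants `(c₄, c₆)` of the semistable elliptic curves over `ℚ` which are quadratic twists
of the curves `E t`, of conductor at most `X` and height `max (|c₄|³, c₆²) ≤ Z` -/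
def Twists (E : ℚ → WeierstrassCurve ℚ) (X Z : ℝ) : Set (ℤ × ℤ) :=
  {p | ∃ (W : WeierstrassCurve ℤ) (t l : ℚ), p = (W.c₄, W.c₆) ∧ Semistable W ∧ l ≠ 0 ∧
    (E t).c₄ = l ^ 2 * W.c₄ ∧ (E t).c₆ = l ^ 3 * W.c₆ ∧
    (conductor W : ℝ) ≤ X ∧ |(W.c₄ : ℝ)| ^ 3 ≤ Z ∧ (W.c₆ : ℝ) ^ 2 ≤ Z}

open Pool.Agent.TH498.KB in
private theorem twists7 (X Z : ℝ) : Twists kubert7 X Z =
    Pool.Agent.H461.Blk.Cvs (c4p a1_z7 a2_z7 a3_z7) (c6p a1_z7 a2_z7 a3_z7) X Z := by
  have h4 : ∀ t : ℚ, aeval t (c4p a1_z7 a2_z7 a3_z7) = (kubert7 t).c₄ := by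
    intro t
    simp only [c4p, a1_z7, a2_z7, a3_z7, kubert7, WeierstrassCurve.c₄, WeierstrassCurve.b₂,
      WeierstrassCurve.b₄, map_sub, map_add, map_mul, map_pow, map_neg, map_one, map_ofNat, aeval_X]
    ring
  have h6 : ∀ t : ℚ, aeval t (c6p a1_z7 a2_z7 a3_z7) = (kubert7 t).c₆ := by
    intro t
    simp only [c6p, a1_z7, a2_z7, a3_z7, kubert7, WeierstrassCurve.c₆, WeierstrassCurve.b₂,
      WeierstrassCurve.b₄, WeierstrassCurve.b₆, map_sub, map_add, map_mul, map_pow, map_neg, map_one,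
      map_ofNat, aeval_X]
    ring
  ext p
  constructor
  · rintro ⟨W, t, l, h1, h2, h3, e4, e6, h5, h7, h8⟩
    exact ⟨W, t, h1, h2, ⟨l, h3, by rw [h4, e4], by rw [h6, e6]⟩, h5, h7, h8⟩
  · rintro ⟨W, t, h1, h2, ⟨l, h3, e4, e6⟩, h5, h7, h8⟩
    exact ⟨W, t, l, h1, h2, h3, by rw [← h4, e4], by rw [← h6, e6], h5, h7, h8⟩

open Pool.Agent.TH498.KB in
private theorem twists9 (X Z : ℝ) : Twists kubert9 X Z =
    Pool.Agent.H461.Blk.Cvs (c4p a1_z9 a2_z9 a3_z9) (c6p a1_z9 a2_z9 a3_z9) X Z := by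
  have h4 : ∀ t : ℚ, aeval t (c4p a1_z9 a2_z9 a3_z9) = (kubert9 t).c₄ := by
    intro t
    simp only [c4p, a1_z9, a2_z9, a3_z9, kubert9, WeierstrassCurve.c₄, WeierstrassCurve.b₂,
      WeierstrassCurve.b₄, map_sub, map_add, map_mul, map_pow, map_neg, map_one, map_ofNat, aeval_X]
    ring
  have h6 : ∀ t : ℚ, aeval t (c6p a1_z9 a2_z9 a3_z9) = (kubert9 t).c₆ := by
    intro t
    simp only [c6p, a1_z9, a2_z9, a3_z9, kubert9, WeierstrassCurve.c₆, WeierstrassCurve.b₂,
      WeierstrassCurve.b₄, WeierstrassCurve.b₆, map_sub, map_add, map_mul, map_pow, map_neg, map_one,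
      map_ofNat, aeval_X]
    ring
  ext p
  constructor
  · rintro ⟨W, t, l, h1, h2, h3, e4, e6, h5, h7, h8⟩
    exact ⟨W, t, h1, h2, ⟨l, h3, by rw [h4, e4], by rw [h6, e6]⟩, h5, h7, h8⟩
  · rintro ⟨W, t, h1, h2, ⟨l, h3, e4, e6⟩, h5, h7, h8⟩
    exact ⟨W, t, l, h1, h2, h3, by rw [← h4, e4], by rw [← h6, e6], h5, h7, h8⟩

/-- **Theorem.** Let `(e, a, b)`, `e ≥ 1`, be a family with only good and multiplicative fibres up to
quadratic twists such that the number of rational cusps is not `1`, let `s` be the number of cusps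
and `w` their weight.

(1) For all `X, Z ≥ 1` and `ε > 0` the number of the semistable elliptic curves over `ℚ` which are
twists of fibres, of conductor `N ≤ X` and height at most `Z`, is at most `C Z ^ ε X ^ (2 / w)`.

(2) For all `κ, c₀, δ > 0` at most `C Z ^ (2 / (κ w) + δ)` semistable twists of fibres of height at
most `Z` violate `|Δ| < c₀ N ^ κ`.

(3) If there is a semistable twist of a fibre, then for large `X` at least `c X ^ (2 / s)` of them
have conductor at most `X` and height at most `C X ^ (6e / s)`.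

(4) If all cusps have degree at most three over `ℚ`, then `w = s`; so if moreover there is a
semistable twist of a fibre, then for every `K > 6e / s` the number of those of conductor at most `X`
and height at most `X ^ K` is `X ^ (2 / s + o(1))`.

(5) For every `K > 4` the number of the semistable elliptic curves of conductor at most `X` and height
at most `X ^ K` which are twists of curves with a rational point of order seven is
`X ^ (1 / 3 + o(1))`.

(6) For every `K > 9 / 2` the number of the semistable elliptic curves of conductor at most `X` and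
height at most `X ^ K` which are twists of curves with a rational point of order nine is
`X ^ (1 / 4 + o(1))`. -/
theorem result :
    (∀ (e : ℕ) (a b : ℤ[X]), 1 ≤ e → IsFamily e a b → rationalCusps e a b ≠ 1 →
      (∀ ε : ℝ, 0 < ε → ∃ C : ℝ, ∀ X Z : ℝ, 1 ≤ X → 1 ≤ Z → (Curves a b X Z).Finite ∧
        ((Curves a b X Z).ncard : ℝ) ≤ C * Z ^ ε * X ^ (2 / (weight e a b : ℝ))) ∧
      (∀ κ c₀ δ : ℝ, 0 < κ → 0 < c₀ → 0 < δ → ∃ C : ℝ, ∀ Z : ℝ, 1 ≤ Z →
        (Violators a b κ c₀ Z).Finite ∧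
        ((Violators a b κ c₀ Z).ncard : ℝ) ≤ C * Z ^ (2 / (κ * weight e a b) + δ)) ∧
      ((∃ (W₀ : WeierstrassCurve ℤ) (t₀ : ℚ), Semistable W₀ ∧ Fibre a b t₀ W₀) →
        ∃ c C X₀ : ℝ, 0 < c ∧ ∀ X : ℝ, X₀ ≤ X → c * X ^ (2 / (cusps e a b : ℝ)) ≤
          ((Curves a b X (C * X ^ (6 * (e : ℝ) / (cusps e a b : ℝ)))).ncard : ℝ)) ∧
      ((∀ p : ℚ[X], Irreducible p → p ∣ (a ^ 3 - b ^ 2).map (Int.castRingHom ℚ) →
          p.natDegree ≤ 3) →
        (∃ (W₀ : WeierstrassCurve ℤ) (t₀ : ℚ), Semistable W₀ ∧ Fibre a b t₀ W₀) →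
        weight e a b = cusps e a b ∧
        ∀ K : ℝ, 6 * (e : ℝ) / (cusps e a b : ℝ) < K →
          Tendsto (fun X : ℝ => Real.log ((Curves a b X (X ^ K)).ncard : ℝ) / Real.log X) atTop
            (𝓝 (2 / (cusps e a b : ℝ))))) ∧
    (∀ K : ℝ, 4 < K →
      Tendsto (fun X : ℝ => Real.log ((Twists kubert7 X (X ^ K)).ncard : ℝ) / Real.log X) atTop
        (𝓝 (1 / 3))) ∧
    (∀ K : ℝ, 9 / 2 < K →
      Tendsto (fun X : ℝ => Real.log ((Twists kubert9 X (X ^ K)).ncard : ℝ) / Real.log X) atTop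
        (𝓝 (1 / 4))) := by
  refine ⟨?_, ?_, ?_⟩
  · intro e a b he hF hrat
    refine ⟨?_, ?_, ?_, ?_⟩
    · intro ε hε
      obtain ⟨C, -, h⟩ := Pool.Agent.H461.Blk.fam_upper he hF hrat ε hε
      exact ⟨C, h⟩
    · intro κ c₀ δ hκ hc₀ hδ
      exact Pool.Agent.H461.Blk.vio_le he hF hrat κ c₀ δ hκ hc₀ hδ
    · rintro ⟨W₀, t₀, h₀, hf⟩
      obtain ⟨c, C, X₀, hc, -, h⟩ := Pool.Agent.H461.Blk.fam_lower he hF W₀ h₀ t₀ hf
      exact ⟨c, C, X₀, hc, h⟩
    · rintro h3 ⟨W₀, t₀, h₀, hf⟩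
      refine ⟨Pool.Agent.H461.Blk.famWeight_eq he hF ?_ h3, fun K hK =>
        Pool.Agent.H461.Blk.fam_tendsto he hF hrat h3 W₀ h₀ t₀ hf K hK⟩
      intro h0
      apply (Pool.Agent.H461.Fam.fibre_rel h₀.1 hf).1
      rw [h0, map_zero]
  · intro K hK
    obtain ⟨g1, g2, g3, g4⟩ := Pool.Agent.H461.Blk.good_z7
    have hW : Pool.Agent.H461.Fam.Semistable (⟨-1, -4, -4, 0, 0⟩ : WeierstrassCurve ℤ) := by
      constructor
      · simp only [WeierstrassCurve.Δ, WeierstrassCurve.b₂, WeierstrassCurve.b₄,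
          WeierstrassCurve.b₆, WeierstrassCurve.b₈]
        norm_num
      · rw [Int.isCoprime_iff_gcd_eq_one]
        simp only [WeierstrassCurve.c₄, WeierstrassCurve.Δ, WeierstrassCurve.b₂,
          WeierstrassCurve.b₄, WeierstrassCurve.b₆, WeierstrassCurve.b₈]
        norm_num
    have hf : Pool.Agent.H461.Fam.Fibre (Pool.Agent.TH498.KB.c4p Pool.Agent.TH498.KB.a1_z7
        Pool.Agent.TH498.KB.a2_z7 Pool.Agent.TH498.KB.a3_z7) (Pool.Agent.TH498.KB.c6p
        Pool.Agent.TH498.KB.a1_z7 Pool.Agent.TH498.KB.a2_z7 Pool.Agent.TH498.KB.a3_z7) 2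
        (⟨-1, -4, -4, 0, 0⟩ : WeierstrassCurve ℤ) := by
      refine ⟨1, one_ne_zero, ?_, ?_⟩
      · simp only [Pool.Agent.TH498.KB.c4p, Pool.Agent.TH498.KB.a1_z7, Pool.Agent.TH498.KB.a2_z7,
          Pool.Agent.TH498.KB.a3_z7, WeierstrassCurve.c₄, WeierstrassCurve.b₂,
          WeierstrassCurve.b₄, map_sub, map_add, map_mul, map_pow, map_neg, map_one, map_ofNat,
          aeval_X]
        norm_num
      · simp only [Pool.Agent.TH498.KB.c6p, Pool.Agent.TH498.KB.a1_z7, Pool.Agent.TH498.KB.a2_z7,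
          Pool.Agent.TH498.KB.a3_z7, WeierstrassCurve.c₆, WeierstrassCurve.b₂,
          WeierstrassCurve.b₄, WeierstrassCurve.b₆, map_sub, map_add, map_mul, map_pow, map_neg,
          map_one, map_ofNat, aeval_X]
        norm_num
    have := Pool.Agent.H461.Blk.fam_tendsto (by norm_num) g1 g2 g4 _ hW 2 hf K (by
      rw [g3]
      norm_num
      linarith)
    rw [g3] at this
    have e1 : (2 : ℝ) / ((6 : ℕ) : ℝ) = 1 / 3 := by norm_num
    rw [e1] at this
    simp only [twists7]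
    exact this
  · intro K hK
    obtain ⟨g1, g2, g3, g4⟩ := Pool.Agent.H461.Blk.good_z9
    have hW : Pool.Agent.H461.Fam.Semistable (⟨-17, -126, -126, 0, 0⟩ : WeierstrassCurve ℤ) := by
      constructor
      · simp only [WeierstrassCurve.Δ, WeierstrassCurve.b₂, WeierstrassCurve.b₄,
          WeierstrassCurve.b₆, WeierstrassCurve.b₈]
        norm_num
      · rw [Int.isCoprime_iff_gcd_eq_one]
        simp only [WeierstrassCurve.c₄, WeierstrassCurve.Δ, WeierstrassCurve.b₂,
          WeierstrassCurve.b₄, WeierstrassCurve.b₆, WeierstrassCurve.b₈]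
        norm_num
    have hf : Pool.Agent.H461.Fam.Fibre (Pool.Agent.TH498.KB.c4p Pool.Agent.TH498.KB.a1_z9
        Pool.Agent.TH498.KB.a2_z9 Pool.Agent.TH498.KB.a3_z9) (Pool.Agent.TH498.KB.c6p
        Pool.Agent.TH498.KB.a1_z9 Pool.Agent.TH498.KB.a2_z9 Pool.Agent.TH498.KB.a3_z9) 3
        (⟨-17, -126, -126, 0, 0⟩ : WeierstrassCurve ℤ) := by
      refine ⟨1, one_ne_zero, ?_, ?_⟩
      · simp only [Pool.Agent.TH498.KB.c4p, Pool.Agent.TH498.KB.a1_z9, Pool.Agent.TH498.KB.a2_z9,
          Pool.Agent.TH498.KB.a3_z9, WeierstrassCurve.c₄, WeierstrassCurve.b₂,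
          WeierstrassCurve.b₄, map_sub, map_add, map_mul, map_pow, map_neg, map_one, map_ofNat,
          aeval_X]
        norm_num
      · simp only [Pool.Agent.TH498.KB.c6p, Pool.Agent.TH498.KB.a1_z9, Pool.Agent.TH498.KB.a2_z9,
          Pool.Agent.TH498.KB.a3_z9, WeierstrassCurve.c₆, WeierstrassCurve.b₂,
          WeierstrassCurve.b₄, WeierstrassCurve.b₆, map_sub, map_add, map_mul, map_pow, map_neg,
          map_one, map_ofNat, aeval_X]
        norm_num
    have := Pool.Agent.H461.Blk.fam_tendsto (by norm_num) g1 g2 g4 _ hW 3 hf K (by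
      rw [g3]
      norm_num
      linarith)
    rw [g3] at this
    have e1 : (2 : ℝ) / ((8 : ℕ) : ℝ) = 1 / 4 := by norm_num
    rw [e1] at this
    simp only [twists9]
    exact this

end Pool.Agent.Results.MP_d8bd92_nt.FamiliesByConductor
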