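import Pool.Agent.H461.Fam.Main

/-!
# Large Szpiro ratios in every semistable one-parameter family, close to every semistable fibre

Let `A`, `B` be binary forms over `ℤ` of degrees `2e`, `3e` without a common zero. The elliptic curve
with the invariants `c₄ = A(t)`, `c₆ = B(t)` over `ℚ(t)` has only good and multiplicative reduction, up
to quadratic twists, and every such curve over `ℚ(t)` is given by such forms (up to a twist). Its
discriminant form `(A³ - B²) / 1728` has degree `6e`; let `s` be the number of its zeros on the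
projective line over `ℂ`. For almost all semistable fibres the Szpiro ratio `log |Δ| / log N` should be
near `6e / s`, and the `abc` conjecture implies that it is at most `6e / (s - 2) + ε` with finitely many
exceptions (`s ≥ e + 2`, so this is at most `6 + ε`).

We prove that all values between `6e / s` and `6e / (s - 2)` are exceeded in every such family,
arbitrarily close to every given semistable fibre, in the real topology and in the `p`-adic topologies
of finitely many primes, and that the number of these fibres with conductor at most `X` has at least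
the expected order of magnitude `X ^ (1 - κ (s - 2) / (6 e))`.

Proof: the values `G(x, y)` of the squarefree part of `A³ - B²` are divisible by a high power `D` of a
fixed number on a lattice of index `D`. If the zeros of `G` are not rational, the lattice has no short
vectors by the theorem of Ridout; if two of them are rational, two primes are used. So the lattice has
`≫ H² / D` coprime points in a given class of residues and in a small disc of radius `≍ H` about a
given point at distance `H` from the origin, for all `H` and `D` in question.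
-/

set_option autoImplicit false

open Polynomial

namespace Pool.Agent.Results.MP_d8bd92_nt.LargeRatioInFamilies

/-- an integral Weierstrass equation with `Δ ≠ 0` and `gcd (c₄, Δ) = 1`: a minimal model of a
semistable elliptic curve over `ℚ` -/
def Semistable (W : WeierstrassCurve ℤ) : Prop := W.Δ ≠ 0 ∧ IsCoprime W.c₄ W.Δ

/-- the product of the primes dividing `Δ(W)` (the conductor of a semistable curve) -/
def conductor (W : WeierstrassCurve ℤ) : ℕ := ∏ p ∈ W.Δ.natAbs.primeFactors, p

/-- `W` is close to `W₀`: the coefficients are congruent modulo `Q`, and the invariants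
`j = c₄³ / Δ` differ by less than `η` -/
def Near (Q : ℕ) (η : ℝ) (W₀ W : WeierstrassCurve ℤ) : Prop :=
  W.a₁ = W₀.a₁ ∧ W.a₂ = W₀.a₂ ∧ W.a₃ = W₀.a₃ ∧ (Q : ℤ) ∣ W.a₄ - W₀.a₄ ∧ (Q : ℤ) ∣ W.a₆ - W₀.a₆ ∧
    |(W.c₄ : ℝ) ^ 3 / W.Δ - (W₀.c₄ : ℝ) ^ 3 / W₀.Δ| < η

/-- The family of the curves with `c₄ = a(t)`, `c₆ = b(t)`: the binary forms of degrees `2e` and `3e`
given by the polynomials `a` and `b` have no common zero on the projective line over `ℂ`. (The
polynomials have no common root, and `∞` is not a common zero.) -/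
def IsFamily (e : ℕ) (a b : ℤ[X]) : Prop :=
  a.natDegree ≤ 2 * e ∧ b.natDegree ≤ 3 * e ∧
    IsCoprime (a.map (Int.castRingHom ℚ)) (b.map (Int.castRingHom ℚ)) ∧
    (a.coeff (2 * e) ≠ 0 ∨ b.coeff (3 * e) ≠ 0)

/-- the number of the points of the projective line over `ℂ` with a bad fibre: the number of the
different zeros of the form of degree `6e` given by `a³ - b²` -/
noncomputable def cusps (e : ℕ) (a b : ℤ[X]) : ℕ :=
  ((a ^ 3 - b ^ 2).rootSet ℂ).ncard + if (a ^ 3 - b ^ 2).natDegree < 6 * e then 1 else 0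

/-- `W` is (isomorphic over `ℚ` to) a quadratic twist of the fibre over `t`:
`(a(t), b(t)) = (l² c₄, l³ c₆)` -/
def Fibre (a b : ℤ[X]) (t : ℚ) (W : WeierstrassCurve ℤ) : Prop :=
  ∃ l : ℚ, l ≠ 0 ∧ aeval t a = l ^ 2 * W.c₄ ∧ aeval t b = l ^ 3 * W.c₆

/-- **Theorem.** Let `(e, a, b)` be a family with only good and multiplicative fibres up to quadratic
twists, `s = cusps e a b`, and let the semistable elliptic curve `W₀` over `ℚ` be a twist of the fibre
over `t₀`. Let `Q ≥ 1`, `η > 0` and `6e / s ≤ κ < 6e / (s - 2)`. There is `c > 0` such that for all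
large `X` at least `c X ^ (1 - κ (s - 2) / (6e))` semistable elliptic curves over `ℚ` which are twists
of fibres over points `t` with `|t - t₀| < η` and close to `W₀` (modulo `Q`, and up to `η` in the real
topology) have conductor `N ≤ X` and `|Δ| ≥ X ^ κ`. -/
theorem result (e : ℕ) (a b : ℤ[X]) (hF : IsFamily e a b) (W₀ : WeierstrassCurve ℤ)
    (h₀ : Semistable W₀) (t₀ : ℚ) (hf : Fibre a b t₀ W₀) (Q : ℕ) (hQ : 1 ≤ Q) (η : ℝ) (hη : 0 < η)
    (κ : ℝ) (h1 : 6 * (e : ℝ) / cusps e a b ≤ κ) (h2 : κ < 6 * (e : ℝ) / ((cusps e a b : ℝ) - 2)) :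
    ∃ c X₀ : ℝ, 0 < c ∧ ∀ X : ℝ, X₀ ≤ X → ∃ S : Finset (ℤ × ℤ),
      c * X ^ (1 - κ * ((cusps e a b : ℝ) - 2) / (6 * e)) ≤ (S.card : ℝ) ∧
      ∀ q ∈ S, ∃ (W : WeierstrassCurve ℤ) (t : ℚ), q = (W.c₄, W.c₆) ∧ Semistable W ∧
        Fibre a b t W ∧ |(t : ℝ) - t₀| < η ∧ Near Q η W₀ W ∧ (conductor W : ℝ) ≤ X ∧
        X ^ κ ≤ |(W.Δ : ℝ)| := by
  obtain ⟨c, X₀, hc, h⟩ := Pool.Agent.H461.Fam.main hF W₀ h₀ t₀ hf Q hQ η hη κ h1 h2
  refine ⟨c, X₀, hc, fun X hX => ?_⟩
  obtain ⟨S, hS1, hS2⟩ := h X hX
  refine ⟨S, hS1, fun q hq => ?_⟩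
  obtain ⟨W, t, e1, e2, e3, e4, e5, e6, e7, e8, e9, e10, e11, e12⟩ := hS2 q hq
  exact ⟨W, t, e1, e2, e3, e4, ⟨e5, e6, e7, e8, e9, e10⟩, e11, e12⟩

end Pool.Agent.Results.MP_d8bd92_nt.LargeRatioInFamilies
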